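import Pool.Agent.Helper19.HV.Curve
import Pool.Agent.Helper91.PL.A2
import Pool.Agent.Helper91.PL.A6

/-!
# Project HV (MP_bae8ce_ag), module VIN: the value at infinity
-/

set_option autoImplicit false

namespace Pool.Agent.Helper19.HV

noncomputable section

open PL

private theorem vin_inj {F : Type} [Field F] : Function.Injective
    (Polynomial.eval₂RingHom (RatFunc.C : F →+* RatFunc F) (RatFunc.X : RatFunc F)⁻¹) := by
  rw [injective_iff_map_eq_zero]
  intro P hP
  rw [Polynomial.coe_eval₂RingHom] at hP
  have hX : (RatFunc.X : RatFunc F)⁻¹ ≠ 0 := inv_ne_zero RatFunc.X_ne_zero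
  letI : Invertible ((RatFunc.X : RatFunc F)⁻¹) := invertibleOfNonzero hX
  have h1 : Polynomial.eval₂ (RatFunc.C : F →+* RatFunc F) (⅟((RatFunc.X : RatFunc F)⁻¹))
      (Polynomial.reverse P) = 0 :=
    (Polynomial.eval₂_reverse_eq_zero_iff _ _ P).2 hP
  have h2 : (⅟((RatFunc.X : RatFunc F)⁻¹)) = RatFunc.X := by
    rw [invOf_eq_inv, inv_inv]
  rw [h2] at h1
  have h3 : ∀ Q : Polynomial F, Polynomial.eval₂ (RatFunc.C : F →+* RatFunc F)
      (RatFunc.X : RatFunc F) Q = algebraMap (Polynomial F) (RatFunc F) Q := by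
    intro Q
    have : (Polynomial.eval₂RingHom (RatFunc.C : F →+* RatFunc F) (RatFunc.X : RatFunc F)) =
        algebraMap (Polynomial F) (RatFunc F) := by
      apply Polynomial.ringHom_ext
      · intro x
        simp
      · simp
    exact congrArg (fun g : Polynomial F →+* RatFunc F => g Q) this
  rw [h3, map_eq_zero_iff _ (RatFunc.algebraMap_injective F)] at h1
  exact Polynomial.reverse_eq_zero.1 h1

private theorem vin_tau {F : Type} [Field F] : ∃ τ : RatFunc F →+* RatFunc F,
    (∀ c : F, τ (RatFunc.C c) = RatFunc.C c) ∧ τ RatFunc.X = RatFunc.X⁻¹ := by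
  refine ⟨IsFractionRing.lift (K := RatFunc F) (vin_inj (F := F)), fun c => ?_, ?_⟩
  · have h := IsFractionRing.lift_algebraMap (K := RatFunc F) (vin_inj (F := F)) (Polynomial.C c)
    rw [RatFunc.algebraMap_C] at h
    rw [h]
    simp
  · have h := IsFractionRing.lift_algebraMap (K := RatFunc F) (vin_inj (F := F))
      (Polynomial.X : Polynomial F)
    rw [RatFunc.algebraMap_X] at h
    rw [h]
    simp

/-- VIN.  The value at infinity. -/
theorem mVIN {F : Type} [Field F]
    (hF : ∀ (k : ℕ) (σ : RatFunc F →+* RatFunc F) (α : ZP (RatFunc F)),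
      α ∈ R (k + 2) (RatFunc F) → mapP σ α ∈ R (k + 2) (RatFunc F))
    (hS : ∀ (k : ℕ) (α : ZP (RatFunc F)), α ∈ R (k + 2) (RatFunc F) →
      spec (0 : F) α ∈ R (k + 2) F) :
    ∃ vi : P1 (RatFunc F) → P1 F, Vinf vi := by
  obtain ⟨τ, hC, hX⟩ := vin_tau (F := F)
  have hX0 : (RatFunc.X : RatFunc F) ≠ 0 := RatFunc.X_ne_zero
  refine ⟨fun x => val 0 (Option.map τ x), ?_, ?_, ?_, ?_⟩
  · intro c
    cases c with
    | none => rfl
    | some c =>
      have h : Option.map τ (cst (some c)) = some (RatFunc.C c) := by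
        simp [cst, hC]
      rw [h, val_C]
  · intro a c hc
    have h : τ (RatFunc.C c * (RatFunc.X - RatFunc.C a)) =
        algebraMap (Polynomial F) (RatFunc F)
          (Polynomial.C c * (1 - Polynomial.C a * Polynomial.X)) /
        algebraMap (Polynomial F) (RatFunc F) Polynomial.X := by
      simp only [map_mul, map_sub, map_one, hC, hX, RatFunc.algebraMap_C, RatFunc.algebraMap_X]
      field_simp
    exact a6_val_none h Polynomial.X_ne_zero (by simp) (by simpa using hc)
  · intro a b c
    have hb : (1 - RatFunc.C b * (RatFunc.X : RatFunc F)) ≠ 0 := by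
      intro h0
      have h1 : algebraMap (Polynomial F) (RatFunc F) (1 - Polynomial.C b * Polynomial.X) = 0 := by
        simpa only [map_mul, map_sub, map_one, RatFunc.algebraMap_C, RatFunc.algebraMap_X] using h0
      rw [map_eq_zero_iff _ (RatFunc.algebraMap_injective F)] at h1
      have h2 := congrArg (Polynomial.eval 0) h1
      simp at h2
    have h : τ (RatFunc.C c * ((RatFunc.X - RatFunc.C a) / (RatFunc.X - RatFunc.C b))) =
        algebraMap (Polynomial F) (RatFunc F)
          (Polynomial.C c * (1 - Polynomial.C a * Polynomial.X)) /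
        algebraMap (Polynomial F) (RatFunc F) (1 - Polynomial.C b * Polynomial.X) := by
      simp only [map_mul, map_sub, map_one, map_div₀, hC, hX, RatFunc.algebraMap_C,
        RatFunc.algebraMap_X]
      have e1 : (RatFunc.X : RatFunc F)⁻¹ - RatFunc.C a =
          (1 - RatFunc.C a * RatFunc.X) / RatFunc.X := by
        field_simp
      have e2 : (RatFunc.X : RatFunc F)⁻¹ - RatFunc.C b =
          (1 - RatFunc.C b * RatFunc.X) / RatFunc.X := by
        field_simp
      rw [e1, e2, div_div_div_cancel_right₀ hX0, mul_div_assoc]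
    have hv := a6_val_some (a := (0 : F)) h (by simp)
    change val 0 (some (τ _)) = some c
    rw [hv]
    simp
  · intro k α hα
    have h : Finsupp.mapDomain (fun x => val 0 (Option.map τ x)) α =
        spec (0 : F) (mapP τ α) := by
      simp only [spec, mapP, Finsupp.lmapDomain_apply]
      rw [← Finsupp.mapDomain_comp]
      rfl
    rw [h]
    exact hS k _ (hF k τ α hα)

end

end Pool.Agent.Helper19.HV
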